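import Mathlib
import Pool.Agent.Helper62.VT.RF
import Pool.Agent.Helper28.D4.Hit

/-!
# RO1: the one-seed generator preserves nonconstancy of read-once formulas
-/

namespace Pool.Agent.Helper62.VT

open MvPolynomial

variable {n : ℕ}

/-- The generator `z ∏_{i ≠ l} (w - i)` with one seed (`z = X 0`, `w = X 1`). -/
noncomputable def theta (n : ℕ) : MvPolynomial (Fin n) ℂ →ₐ[ℂ] MvPolynomial (Fin 2) ℂ :=
  aeval fun l => X 0 * ∏ i ∈ Finset.univ.erase l, (X 1 - C ((i : ℕ) : ℂ))

namespace RO1

open scoped Polynomial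

/-- `∏_{i ∈ S} (w - i)`. -/
noncomputable def Phi (S : Finset (Fin n)) : ℂ[X] :=
  ∏ i ∈ S, (Polynomial.X - Polynomial.C ((i : ℕ) : ℂ))

/-- The same generator, in `ℂ[w][z]`. -/
noncomputable def thetaP (n : ℕ) : MvPolynomial (Fin n) ℂ →ₐ[ℂ] ℂ[X][X] :=
  aeval fun l => Polynomial.X * Polynomial.C (Phi (Finset.univ.erase l))

/-- The comparison map. -/
noncomputable def cmp : MvPolynomial (Fin 2) ℂ →ₐ[ℂ] ℂ[X][X] :=
  aeval ![Polynomial.X, Polynomial.C Polynomial.X]

lemma cmp_theta (p : MvPolynomial (Fin n) ℂ) : cmp (theta n p) = thetaP n p := by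
  have : cmp.comp (theta n) = thetaP n := by
    apply MvPolynomial.algHom_ext
    intro l
    simp only [AlgHom.comp_apply, theta, thetaP, aeval_X, cmp, map_mul, map_prod, map_sub,
      Phi, MvPolynomial.algHom_C]
    simp
  exact congrArg (fun g => g p) this

lemma Phi_monic (S : Finset (Fin n)) : (Phi S).Monic :=
  Polynomial.monic_prod_of_monic _ _ fun _ _ => Polynomial.monic_X_sub_C _

lemma Phi_natDegree (S : Finset (Fin n)) : (Phi S).natDegree = S.card := by
  rw [Phi, Polynomial.natDegree_prod_of_monic _ _ fun _ _ => Polynomial.monic_X_sub_C _]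
  simp only [Polynomial.natDegree_X_sub_C, Finset.sum_const, smul_eq_mul, mul_one]

lemma Phi_ne_zero (S : Finset (Fin n)) : Phi S ≠ 0 := (Phi_monic S).ne_zero

lemma Phi_dvd {S S' : Finset (Fin n)} (h : S ⊆ S') : Phi S ∣ Phi S' :=
  Finset.prod_dvd_prod_of_subset _ _ _ h

lemma sub_dvd_Phi {S : Finset (Fin n)} {i : Fin n} (h : i ∈ S) :
    Polynomial.X - Polynomial.C ((i : ℕ) : ℂ) ∣ Phi S :=
  Finset.dvd_prod_of_mem (fun i : Fin n => Polynomial.X - Polynomial.C ((i : ℕ) : ℂ)) h

/-- The coefficient bounds for polynomials in the variables of `V`. -/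
def Good (V : Finset (Fin n)) (Q : ℂ[X][X]) : Prop :=
  ∀ e, (Q.coeff e).natDegree ≤ e * (n - 1) ∧ Phi Vᶜ ^ e ∣ Q.coeff e

lemma Good.mono {V V' : Finset (Fin n)} (h : V ⊆ V') {Q : ℂ[X][X]} (hQ : Good V Q) :
    Good V' Q := fun e =>
  ⟨(hQ e).1, (pow_dvd_pow_of_dvd (Phi_dvd (Finset.compl_subset_compl.2 h)) e).trans (hQ e).2⟩

lemma Good.add {V : Finset (Fin n)} {Q R : ℂ[X][X]} (hQ : Good V Q) (hR : Good V R) :
    Good V (Q + R) := fun e => by
  rw [Polynomial.coeff_add]
  exact ⟨(Polynomial.natDegree_add_le _ _).trans (max_le (hQ e).1 (hR e).1),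
    dvd_add (hQ e).2 (hR e).2⟩

lemma Good.mul {V : Finset (Fin n)} {Q R : ℂ[X][X]} (hQ : Good V Q) (hR : Good V R) :
    Good V (Q * R) := fun e => by
  rw [Polynomial.coeff_mul]
  constructor
  · apply Polynomial.natDegree_sum_le_of_forall_le
    rintro ⟨i, j⟩ hij
    replace hij := Finset.HasAntidiagonal.mem_antidiagonal.1 hij
    refine Polynomial.natDegree_mul_le.trans ?_
    have h1 := (hQ i).1
    have h2 := (hR j).1
    simp only at h1 h2 hij ⊢
    rw [← hij, add_mul]
    exact add_le_add h1 h2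
  · apply Finset.dvd_sum
    rintro ⟨i, j⟩ hij
    replace hij := Finset.HasAntidiagonal.mem_antidiagonal.1 hij
    simp only at hij ⊢
    rw [← hij, pow_add]
    exact mul_dvd_mul (hQ i).2 (hR j).2

lemma Good.const (V : Finset (Fin n)) (c : ℂ) : Good V (Polynomial.C (Polynomial.C c)) := by
  intro e
  rw [Polynomial.coeff_C]
  by_cases he : e = 0
  · simp [he]
  · simp [he]

lemma coeff_leaf (l : Fin n) (T : ℂ[X]) (e : ℕ) :
    (thetaP n (Polynomial.aeval (X l) T)).coeff e =
      Polynomial.C (T.coeff e) * Phi (Finset.univ.erase l) ^ e := by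
  induction T using Polynomial.induction_on' with
  | add p q hp hq =>
    rw [map_add, map_add, Polynomial.coeff_add, hp, hq, Polynomial.coeff_add, map_add, add_mul]
  | monomial k a =>
    rw [Polynomial.aeval_monomial, map_mul, map_pow, thetaP, aeval_X, mul_pow,
      ← Polynomial.C_pow, Polynomial.coeff_monomial]
    rw [MvPolynomial.algebraMap_eq, MvPolynomial.algHom_C]
    have : (algebraMap ℂ ℂ[X][X]) a = Polynomial.C (Polynomial.C a) := rfl
    rw [this, Polynomial.coeff_C_mul, mul_comm (Polynomial.X ^ k), Polynomial.coeff_C_mul,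
      Polynomial.coeff_X_pow]
    by_cases hk : k = e
    · subst hk; simp
    · simp [hk, Ne.symm hk]

lemma good_leaf (l : Fin n) (T : ℂ[X]) : Good {l} (thetaP n (Polynomial.aeval (X l) T)) := by
  intro e
  rw [coeff_leaf]
  constructor
  · refine Polynomial.natDegree_mul_le.trans ?_
    rw [Polynomial.natDegree_C, zero_add]
    refine Polynomial.natDegree_pow_le.trans ?_
    rw [Phi_natDegree, Finset.card_erase_of_mem (Finset.mem_univ l), Finset.card_univ,
      Fintype.card_fin]
  · have : (({l} : Finset (Fin n))ᶜ) = Finset.univ.erase l := by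
      ext i; simp
    rw [this]
    exact Dvd.intro_left _ rfl

lemma good_poly (f : RF n) : Good f.vars (thetaP n f.poly) := by
  induction f with
  | const c =>
    simp only [RF.poly, MvPolynomial.algHom_C]
    exact Good.const _ c
  | leaf l T => exact good_leaf l T
  | add f g hf hg =>
    simp only [RF.poly, map_add]
    exact (hf.mono Finset.subset_union_left).add (hg.mono Finset.subset_union_right)
  | mul f g hf hg =>
    simp only [RF.poly, map_mul]
    exact (hf.mono Finset.subset_union_left).mul (hg.mono Finset.subset_union_right)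

lemma coeff_eq_zero {V V' : Finset (Fin n)} (hV : Disjoint V V') (hn : 0 < n) {Q : ℂ[X][X]}
    {e : ℕ} (he : e ≠ 0) (h1 : (Q.coeff e).natDegree ≤ e * (n - 1))
    (h2 : Phi Vᶜ ^ e ∣ Q.coeff e) (h3 : Phi V'ᶜ ^ e ∣ Q.coeff e) : Q.coeff e = 0 := by
  have hdvd : ∏ i : Fin n, (Polynomial.X - Polynomial.C ((i : ℕ) : ℂ)) ^ e ∣ Q.coeff e := by
    apply Finset.prod_dvd_of_coprime
    · intro i _ j _ hij
      have hinj : Function.Injective fun i : Fin n => ((i : ℕ) : ℂ) :=
        fun a b hab => Fin.ext (Nat.cast_injective hab)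
      exact (Polynomial.pairwise_coprime_X_sub_C hinj hij).pow
    · intro i _
      by_cases hi : i ∈ V
      · have hi' : i ∈ V'ᶜ := by
          rw [Finset.mem_compl]
          exact Finset.disjoint_left.1 hV hi
        exact (pow_dvd_pow_of_dvd (sub_dvd_Phi hi') e).trans h3
      · exact (pow_dvd_pow_of_dvd (sub_dvd_Phi (Finset.mem_compl.2 hi)) e).trans h2
  by_contra hne
  have hdeg := Polynomial.natDegree_le_of_dvd hdvd hne
  rw [Finset.prod_pow, Polynomial.natDegree_pow] at hdeg
  have hd2 := Phi_natDegree (Finset.univ : Finset (Fin n))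
  rw [Finset.card_univ, Fintype.card_fin, Phi] at hd2
  rw [hd2] at hdeg
  have hpos : 0 < e := Nat.pos_of_ne_zero he
  have : e * n ≤ e * (n - 1) := hdeg.trans h1
  have := Nat.le_of_mul_le_mul_left this hpos
  omega

lemma eq_const_of_coeff {Q : ℂ[X][X]} (h : ∀ e, e ≠ 0 → Q.coeff e = 0)
    (h0 : (Q.coeff 0).natDegree ≤ 0) : ∃ c : ℂ, Q = Polynomial.C (Polynomial.C c) := by
  refine ⟨(Q.coeff 0).coeff 0, ?_⟩
  rw [← Polynomial.eq_C_of_natDegree_le_zero h0]
  ext1 e
  rw [Polynomial.coeff_C]
  by_cases he : e = 0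
  · simp [he]
  · rw [if_neg he, h e he]

theorem thetaP_const (f : RF n) (hf : f.RO) (c : ℂ)
    (h : thetaP n f.poly = Polynomial.C (Polynomial.C c)) : f.poly = C c := by
  induction f generalizing c with
  | const a =>
    simp only [RF.poly, MvPolynomial.algHom_C] at h ⊢
    have h' : Polynomial.C (Polynomial.C a) = Polynomial.C (Polynomial.C c) := h
    rw [Polynomial.C_injective (Polynomial.C_injective h')]
  | leaf l T =>
    simp only [RF.poly] at h ⊢
    have hT : ∀ e, e ≠ 0 → T.coeff e = 0 := by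
      intro e he
      have h1 := coeff_leaf l T e
      rw [h, Polynomial.coeff_C, if_neg he] at h1
      have h2 := (mul_eq_zero.1 h1.symm).resolve_right (pow_ne_zero _ (Phi_ne_zero _))
      exact Polynomial.C_eq_zero.1 h2
    have h0 : T.coeff 0 = c := by
      have h1 := coeff_leaf l T 0
      rw [h, Polynomial.coeff_C, if_pos rfl, pow_zero, mul_one] at h1
      exact (Polynomial.C_injective h1).symm
    have hTc : T = Polynomial.C c := by
      ext e
      rw [Polynomial.coeff_C]
      by_cases he : e = 0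
      · rw [if_pos he, he, h0]
      · rw [if_neg he, hT e he]
    rw [hTc, Polynomial.aeval_C]
    rfl
  | add f g hf' hg' =>
    obtain ⟨hfr, hgr, hd⟩ := hf
    simp only [RF.poly, map_add] at h ⊢
    rcases Nat.eq_zero_or_pos n with hn | hn
    · subst hn
      rw [MvPolynomial.eq_C_of_isEmpty f.poly, MvPolynomial.eq_C_of_isEmpty g.poly] at h ⊢
      rw [MvPolynomial.algHom_C, MvPolynomial.algHom_C] at h
      have h' : (Polynomial.C (Polynomial.C (coeff 0 f.poly + coeff 0 g.poly)) : ℂ[X][X]) =
          Polynomial.C (Polynomial.C c) := by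
        rw [map_add, map_add]; exact h
      rw [← map_add, Polynomial.C_injective (Polynomial.C_injective h')]
    · have hGf := good_poly f
      have hGg := good_poly g
      have hc : ∀ e, e ≠ 0 →
          (thetaP n g.poly).coeff e = - (thetaP n f.poly).coeff e := by
        intro e he
        have := congrArg (fun Q => Polynomial.coeff Q e) h
        simp only [Polynomial.coeff_add, Polynomial.coeff_C, if_neg he] at this
        exact eq_neg_of_add_eq_zero_right this
      have hf0 : ∀ e, e ≠ 0 → (thetaP n f.poly).coeff e = 0 := by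
        intro e he
        refine coeff_eq_zero hd hn he (hGf e).1 (hGf e).2 ?_
        have := (hGg e).2
        rw [hc e he, dvd_neg] at this
        exact this
      have hg0 : ∀ e, e ≠ 0 → (thetaP n g.poly).coeff e = 0 := by
        intro e he
        rw [hc e he, hf0 e he, neg_zero]
      obtain ⟨a, ha⟩ := eq_const_of_coeff hf0 (by simpa using (hGf 0).1)
      obtain ⟨b, hb⟩ := eq_const_of_coeff hg0 (by simpa using (hGg 0).1)
      rw [hf' hfr a ha, hg' hgr b hb, ← map_add]
      rw [ha, hb, ← map_add, ← map_add] at h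
      rw [Polynomial.C_injective (Polynomial.C_injective h)]
  | mul f g hf' hg' =>
    obtain ⟨hfr, hgr, -⟩ := hf
    simp only [RF.poly, map_mul] at h ⊢
    by_cases hc : c = 0
    · subst hc
      rw [map_zero, map_zero] at h
      rcases mul_eq_zero.1 h with h1 | h1
      · rw [hf' hfr 0 (by rw [h1, map_zero, map_zero])]; simp
      · rw [hg' hgr 0 (by rw [h1, map_zero, map_zero])]; simp
    · have hu : IsUnit (thetaP n f.poly * thetaP n g.poly) := by
        rw [h]
        exact Polynomial.isUnit_C.2 (Polynomial.isUnit_C.2 (isUnit_iff_ne_zero.2 hc))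
      have key : ∀ Q : ℂ[X][X], IsUnit Q → ∃ a : ℂ, Q = Polynomial.C (Polynomial.C a) := by
        intro Q hQ
        obtain ⟨r, hr, rfl⟩ := Polynomial.isUnit_iff.1 hQ
        obtain ⟨s, hs, rfl⟩ := Polynomial.isUnit_iff.1 hr
        exact ⟨s, rfl⟩
      obtain ⟨a, ha⟩ := key _ (isUnit_of_mul_isUnit_left hu)
      obtain ⟨b, hb⟩ := key _ (isUnit_of_mul_isUnit_right hu)
      rw [hf' hfr a ha, hg' hgr b hb, ← map_mul]
      rw [ha, hb, ← map_mul, ← map_mul] at h
      rw [Polynomial.C_injective (Polynomial.C_injective h)]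

end RO1

/-- A read-once formula whose image under the one-seed generator is constant is constant. -/
theorem RF.theta_const (f : RF n) (hf : f.RO) (c : ℂ) (h : theta n f.poly = C c) :
    f.poly = C c := by
  apply RO1.thetaP_const f hf c
  rw [← RO1.cmp_theta, h, MvPolynomial.algHom_C]
  rfl

/-- The one-seed generator hits read-once formulas. -/
theorem RF.theta_ne_zero (f : RF n) (hf : f.RO) (h0 : f.poly ≠ 0) : theta n f.poly ≠ 0 := by
  intro h
  apply h0
  rw [RF.theta_const f hf 0 (by rw [h, map_zero]), map_zero]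

/-- `theta` is the generator `G n 1` at `z = X 0`, `w = X 1`. -/
theorem theta_eq_G (p : MvPolynomial (Fin n) ℂ) :
    theta n p = aeval (Pool.Agent.Helper28.D4.G n 1
      (fun _ => (X 0 : MvPolynomial (Fin 2) ℂ)) (fun _ => X 1)) p := by
  have : (fun l : Fin n => (X 0 : MvPolynomial (Fin 2) ℂ) *
      ∏ i ∈ Finset.univ.erase l, (X 1 - C ((i : ℕ) : ℂ))) =
      Pool.Agent.Helper28.D4.G n 1 (fun _ => X 0) (fun _ => X 1) := by
    funext l
    simp [Pool.Agent.Helper28.D4.G]
  rw [theta, this]

/-- The generator `G n 1` preserves nonconstancy of read-once formulas. -/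
theorem RF.G_const (f : RF n) (hf : f.RO) (c : ℂ)
    (h : aeval (Pool.Agent.Helper28.D4.G n 1
      (fun _ => (X 0 : MvPolynomial (Fin 2) ℂ)) (fun _ => X 1)) f.poly = C c) :
    f.poly = C c :=
  RF.theta_const f hf c (by rw [theta_eq_G, h])

/-- The generator `G n 1` hits read-once formulas. -/
theorem RF.G_ne_zero (f : RF n) (hf : f.RO) (h0 : f.poly ≠ 0) :
    aeval (Pool.Agent.Helper28.D4.G n 1
      (fun _ => (X 0 : MvPolynomial (Fin 2) ℂ)) (fun _ => X 1)) f.poly ≠ 0 := by
  rw [← theta_eq_G]
  exact RF.theta_ne_zero f hf h0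

end Pool.Agent.Helper62.VT
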